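import Mathlib

set_option autoImplicit false

namespace Pool.Agent.Results.MP_9e0f03_co.Full

/-- A finite permutation: a length `n` and a bijection of `Fin n` (position to value). -/
abbrev P : Type := Σ n : ℕ, Equiv.Perm (Fin n)

/-- Pattern containment: some subsequence of `π` is order-isomorphic to `σ`. -/
def Le (σ π : P) : Prop :=
  ∃ f : Fin σ.1 → Fin π.1, StrictMono f ∧ ∀ a b, σ.2 a < σ.2 b ↔ π.2 (f a) < π.2 (f b)

/-- A permutation class: closed under taking contained permutations. -/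
def IsClass (C : Set P) : Prop := ∀ π ∈ C, ∀ σ, Le σ π → σ ∈ C

/-- The direct sum: `σ` on the first positions and values, `τ` shifted on the rest. -/
def dsum (σ τ : P) : P :=
  ⟨σ.1 + τ.1, finSumFinEquiv.permCongr (Equiv.sumCongr σ.2 τ.2)⟩

def SumClosed (C : Set P) : Prop := ∀ σ ∈ C, ∀ τ ∈ C, dsum σ τ ∈ C

/-- Nonempty and not a direct sum of two nonempty permutations. -/
def Indec (π : P) : Prop := π.1 ≠ 0 ∧ ¬ ∃ σ τ : P, σ.1 ≠ 0 ∧ τ.1 ≠ 0 ∧ π = dsum σ τ

/-- The indecomposable members of `C`. -/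
def ind (C : Set P) : Set P := {π | π ∈ C ∧ Indec π}

/-- The number of members of `X` of length `n`. -/
noncomputable def cnt (X : Set P) (n : ℕ) : ℕ := {π | π ∈ X ∧ π.1 = n}.ncard

/-- The upper growth rate `limsup |X_n| ^ (1 / n)`. -/
noncomputable def ugr (X : Set P) : ℝ :=
  Filter.limsup (fun n : ℕ => (cnt X n : ℝ) ^ ((n : ℝ)⁻¹)) Filter.atTop

theorem perm_ext {n : ℕ} (s t : Equiv.Perm (Fin n)) (h : ∀ a b, s a < s b ↔ t a < t b) :
    s = t := by
  have h1 : StrictMono (t ∘ s.symm) := fun a b hab => by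
    have := (h (s.symm a) (s.symm b)).1 (by simpa using hab)
    simpa using this
  have h2 : t ∘ s.symm = id := (h1.range_inj strictMono_id).1 (by
    rw [Set.range_id]
    exact (t.surjective.comp s.symm.surjective).range_eq)
  ext a
  have := congrFun h2 (s a)
  simp only [Function.comp, Equiv.symm_apply_apply, id] at this
  rw [this]

theorem exists_pat {α : Type} [LinearOrder α] {n : ℕ} (v : Fin n → α)
    (hv : Function.Injective v) :
    ∃ s : Equiv.Perm (Fin n), ∀ a b, s a < s b ↔ v a < v b := by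
  have hm : Monotone (v ∘ Tuple.sort v) := Tuple.monotone_sort v
  have hs : StrictMono (v ∘ Tuple.sort v) :=
    hm.strictMono_of_injective (hv.comp (Tuple.sort v).injective)
  refine ⟨(Tuple.sort v).symm, fun a b => ?_⟩
  have := hs.lt_iff_lt (a := (Tuple.sort v).symm a) (b := (Tuple.sort v).symm b)
  simpa using this.symm

def Cut (π : P) (j : ℕ) : Prop := ∀ a b : Fin π.1, a.1 < j → j ≤ b.1 → π.2 a < π.2 b

theorem dsum_left (σ τ : P) (a : Fin σ.1) :
    ((dsum σ τ).2 (Fin.castAdd τ.1 a)).1 = (σ.2 a).1 := by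
  show (finSumFinEquiv (Equiv.sumCongr σ.2 τ.2 (finSumFinEquiv.symm (Fin.castAdd τ.1 a)))).1 = _
  rw [finSumFinEquiv_symm_apply_castAdd]
  rfl

theorem dsum_right (σ τ : P) (b : Fin τ.1) :
    ((dsum σ τ).2 (Fin.natAdd σ.1 b)).1 = σ.1 + (τ.2 b).1 := by
  show (finSumFinEquiv (Equiv.sumCongr σ.2 τ.2 (finSumFinEquiv.symm (Fin.natAdd σ.1 b)))).1 = _
  rw [finSumFinEquiv_symm_apply_natAdd]
  rfl

theorem cut_dsum (σ τ : P) (j : ℕ) (hj : j ≤ σ.1) (h : Cut σ j) : Cut (dsum σ τ) j := by
  intro a b ha hb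
  rw [Fin.lt_def]
  induction a using Fin.addCases with
  | left a =>
    induction b using Fin.addCases with
    | left b =>
      rw [dsum_left, dsum_left]
      exact h a b ha hb
    | right b =>
      rw [dsum_left, dsum_right]
      have := (σ.2 a).2
      omega
  | right a =>
    have : σ.1 + a.1 < j := ha
    omega

theorem cut_self (σ : P) : Cut σ σ.1 := fun _ b _ hb => absurd b.2 (not_lt.mpr hb)

theorem split_of_cut (π : P) (j : ℕ) (hj : j ≤ π.1) (h : Cut π j) :
    ∃ σ τ : P, σ.1 = j ∧ π = dsum σ τ := by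
  obtain ⟨n, s⟩ := π
  obtain ⟨m, rfl⟩ := Nat.exists_eq_add_of_le hj
  obtain ⟨u, hu⟩ := exists_pat (fun a : Fin j => s (Fin.castAdd m a))
    (s.injective.comp (Fin.castAdd_injective j m))
  obtain ⟨w, hw⟩ := exists_pat (fun b : Fin m => s (Fin.natAdd j b))
    (s.injective.comp (Fin.natAdd_injective m j))
  refine ⟨⟨j, u⟩, ⟨m, w⟩, rfl, ?_⟩
  have : s = (dsum ⟨j, u⟩ ⟨m, w⟩).2 := by
    refine perm_ext _ _ fun a b => ?_
    have e1 := dsum_left ⟨j, u⟩ ⟨m, w⟩
    have e2 := dsum_right ⟨j, u⟩ ⟨m, w⟩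
    induction a using Fin.addCases with
    | left a =>
      induction b using Fin.addCases with
      | left b =>
        rw [← hu, Fin.lt_def, Fin.lt_def]
        exact Iff.of_eq (congrArg₂ (· < ·) (e1 a).symm (e1 b).symm)
      | right b =>
        have h1 : s (Fin.castAdd m a) < s (Fin.natAdd j b) := h _ _ a.2 (Nat.le_add_right _ _)
        refine iff_of_true h1 ?_
        rw [Fin.lt_def]
        have h2 := e1 a
        have h3 := e2 b
        have h4 := (u a).2
        dsimp only at h2 h3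
        omega
    | right a =>
      induction b using Fin.addCases with
      | left b =>
        have h1 : s (Fin.castAdd m b) < s (Fin.natAdd j a) := h _ _ b.2 (Nat.le_add_right _ _)
        refine iff_of_false (not_lt.mpr h1.le) ?_
        rw [Fin.lt_def]
        have h2 := e1 b
        have h3 := e2 a
        have h4 := (u b).2
        dsimp only at h2 h3
        omega
      | right b =>
        rw [← hw, Fin.lt_def, Fin.lt_def]
        have h2 := e2 a
        have h3 := e2 b
        dsimp only at h2 h3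
        omega
  exact congrArg (Sigma.mk (j + m)) this

theorem indec_iff (π : P) : Indec π ↔ π.1 ≠ 0 ∧ ∀ j, 0 < j → j < π.1 → ¬ Cut π j := by
  refine and_congr_right fun _ => ⟨fun h j h0 hj hc => ?_, ?_⟩
  · obtain ⟨σ, τ, h1, h2⟩ := split_of_cut π j hj.le hc
    have h3 : π.1 = σ.1 + τ.1 := congrArg Sigma.fst h2
    exact h ⟨σ, τ, by omega, by omega, h2⟩
  · rintro h ⟨σ, τ, h1, h2, rfl⟩
    exact h σ.1 (by omega) (by show σ.1 < σ.1 + τ.1; omega)
      (cut_dsum σ τ σ.1 le_rfl (cut_self σ))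

theorem fin_fib (X : Set P) (n : ℕ) : {π | π ∈ X ∧ π.1 = n}.Finite := by
  refine (Set.finite_range fun s : Equiv.Perm (Fin n) => (⟨n, s⟩ : P)).subset ?_
  rintro ⟨m, s⟩ ⟨-, h⟩
  obtain rfl : m = n := h
  exact ⟨s, rfl⟩

theorem cnt_le (X : Set P) (n : ℕ) (p : Equiv.Perm (Fin n) → Prop) [DecidablePred p]
    (h : ∀ s, (⟨n, s⟩ : P) ∈ X → p s) : cnt X n ≤ (Finset.univ.filter p).card := by
  classical
  have : {π | π ∈ X ∧ π.1 = n} ⊆
      (((Finset.univ.filter p).image fun s => (⟨n, s⟩ : P) : Finset P) : Set P) := by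
    rintro ⟨m, s⟩ ⟨h1, h2⟩
    obtain rfl : m = n := h2
    simp only [Finset.coe_image]
    exact ⟨s, by simpa using h s h1, rfl⟩
  refine (Set.ncard_le_ncard this (Finset.finite_toSet _)).trans ?_
  rw [Set.ncard_coe_finset]
  exact Finset.card_image_le

/-- values of the infinite increasing oscillation (even positions) with room for twins -/
def om (x : ℕ) : ℕ := if x % 4 = 2 then x else x + 8

theorem om_spec (x : ℕ) : (x % 4 = 2 ∧ om x = x) ∨ (x % 4 ≠ 2 ∧ om x = x + 8) := by
  unfold om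
  split_ifs with h <;> simp [h]

def Emb (π : P) (f : Fin π.1 → ℕ) : Prop :=
  StrictMono f ∧ ∀ a b, π.2 a < π.2 b ↔ om (f a) < om (f b)

/-- all finite patterns of the oscillation in which every twentieth upper point is doubled -/
def C0 : Set P := {π | ∃ f, Emb π f ∧ ∀ a, f a % 2 = 0 ∨ f a % 80 = 1}

theorem C0_class : IsClass C0 := by
  rintro π ⟨f, ⟨h1, h2⟩, h3⟩ σ ⟨g, h4, h5⟩
  exact ⟨f ∘ g, ⟨h1.comp h4, fun a b => (h5 a b).trans (h2 _ _)⟩, fun a => h3 _⟩

theorem C0_sum : SumClosed C0 := by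
  rintro σ ⟨f, ⟨h1, h2⟩, h3⟩ τ ⟨g, ⟨h4, h5⟩, h6⟩
  obtain ⟨c, hc⟩ : ∃ c, ∀ a, f a ≤ c :=
    ⟨Finset.univ.sup f, fun a => Finset.le_sup (f := f) (Finset.mem_univ a)⟩
  refine ⟨Fin.append f fun b => g b + 80 * (c + 1), ⟨?_, ?_⟩, ?_⟩
  · intro a b hab
    induction a using Fin.addCases with
    | left a =>
      induction b using Fin.addCases with
      | left b =>
        rw [Fin.append_left, Fin.append_left]
        exact h1 hab
      | right b =>
        rw [Fin.append_left, Fin.append_right]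
        have := hc a
        omega
    | right a =>
      induction b using Fin.addCases with
      | left b =>
        have h7 : σ.1 + a.1 < b.1 := hab
        have := b.2
        omega
      | right b =>
        rw [Fin.append_right, Fin.append_right]
        have h7 : σ.1 + a.1 < σ.1 + b.1 := hab
        have := h4 (show a < b by rw [Fin.lt_def]; omega)
        omega
  · intro a b
    rw [Fin.lt_def]
    induction a using Fin.addCases with
    | left a =>
      induction b using Fin.addCases with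
      | left b =>
        rw [Fin.append_left, Fin.append_left, dsum_left, dsum_left]
        exact h2 a b
      | right b =>
        rw [Fin.append_left, Fin.append_right, dsum_left, dsum_right]
        have := hc a
        have := (σ.2 a).2
        have := om_spec (f a)
        have := om_spec (g b + 80 * (c + 1))
        omega
    | right a =>
      induction b using Fin.addCases with
      | left b =>
        rw [Fin.append_left, Fin.append_right, dsum_left, dsum_right]
        have := hc b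
        have := (σ.2 b).2
        have := om_spec (f b)
        have := om_spec (g a + 80 * (c + 1))
        omega
      | right b =>
        rw [Fin.append_right, Fin.append_right, dsum_right, dsum_right]
        have h7 := h5 a b
        rw [Fin.lt_def] at h7
        have := om_spec (g a)
        have := om_spec (g b)
        have := om_spec (g a + 80 * (c + 1))
        have := om_spec (g b + 80 * (c + 1))
        omega
  · intro a
    induction a using Fin.addCases with
    | left a =>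
      rw [Fin.append_left]
      exact h3 a
    | right a =>
      rw [Fin.append_right]
      have := h6 a
      omega

theorem crossing {π : P} {h : Fin π.1 → ℕ} (he : Emb π h)
    (hc : ∀ j, 0 < j → j < π.1 → ¬ Cut π j) (t : ℕ) (a0 b0 : Fin π.1) (h1 : h a0 < t)
    (h2 : t ≤ h b0) : ∃ a b, h a < t ∧ t ≤ h b ∧ om (h b) ≤ om (h a) := by
  classical
  have hne : (Finset.univ.filter fun b => t ≤ h b).Nonempty := ⟨b0, by simpa using h2⟩
  obtain ⟨j, hj, hmin⟩ := Finset.exists_min_image _ id hne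
  have hj' : t ≤ h j := by simpa using hj
  have hmin' : ∀ a, a < j → h a < t := fun a ha => by
    by_contra hh
    exact absurd (hmin a (by simpa using hh)) (not_le.mpr ha)
  have h0 : a0 < j := he.1.lt_iff_lt.mp (by omega)
  have h3 := hc j.1 (lt_of_le_of_lt (Nat.zero_le _) h0) j.2
  unfold Cut at h3
  push Not at h3
  obtain ⟨a, b, h4, h5, h6⟩ := h3
  refine ⟨a, b, hmin' a h4, hj'.trans (he.1.monotone h5), ?_⟩
  by_contra hh
  exact absurd ((he.2 a b).2 (not_le.mp hh)) (not_lt.mpr h6)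

def Good (S : Finset ℕ) : Prop :=
  (∀ x ∈ S, x % 2 = 0 ∨ x % 4 = 1) ∧ (∀ x ∈ S, x % 4 = 1 → x - 1 ∈ S) ∧
  (∀ x ∈ S, ∀ y ∈ S, x % 4 = 1 → y % 4 = 1 → x % 80 = y % 80) ∧
  (∀ t ∈ S, ∀ k, 4 * k + 3 ≤ t → 4 * k ∈ S ∧ 4 * k + 6 ∈ S) ∧
  (∃ y ∈ S, y % 4 = 2 ∧ ∀ x ∈ S, x ≤ y) ∧ 0 ∈ S

theorem normal {π : P} (h : π ∈ C0) : ∃ g, Emb π g ∧
    ∀ a, g a % 2 = 0 ∨ (g a % 80 = 1 ∧ ∃ c, g c + 1 = g a) := by
  classical
  obtain ⟨f, ⟨h1, h2⟩, h3⟩ := h
  let g : Fin π.1 → ℕ := fun a => if f a % 4 = 1 ∧ ¬ ∃ c, f c + 1 = f a then f a - 1 else f a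
  have hg : ∀ a, (f a % 4 = 1 ∧ (∀ c, f c + 1 ≠ f a) ∧ g a = f a - 1) ∨
      ((f a % 4 ≠ 1 ∨ ∃ c, f c + 1 = f a) ∧ g a = f a) := by
    intro a
    by_cases hh : f a % 4 = 1 ∧ ¬ ∃ c, f c + 1 = f a
    · exact Or.inl ⟨hh.1, fun c hc => hh.2 ⟨c, hc⟩, if_pos hh⟩
    · exact Or.inr ⟨by tauto, if_neg hh⟩
  have key : ∀ a b, (f a < f b → g a < g b) ∧ (om (f a) < om (f b) ↔ om (g a) < om (g b)) := by
    intro a b
    have e1 := om_spec (f a)
    have e2 := om_spec (f b)
    have e3 := om_spec (g a)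
    have e4 := om_spec (g b)
    have e5 := h3 a
    have e6 := h3 b
    rcases hg a with ⟨p1, p2, p3⟩ | ⟨p1, p3⟩ <;> rcases hg b with ⟨q1, q2, q3⟩ | ⟨q1, q3⟩
    · have := p2 b
      have := q2 a
      omega
    · have := p2 b
      have hne : f b ≠ f a := by
        intro e
        rcases q1 with q | ⟨c, q⟩
        · exact q (e ▸ p1)
        · exact p2 c (q.trans e)
      clear q1
      omega
    · have := q2 a
      have hne : f a ≠ f b := by
        intro e
        rcases p1 with q | ⟨c, q⟩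
        · exact q (e ▸ q1)
        · exact q2 c (q.trans e)
      clear p1
      omega
    · rw [p3, q3]
      exact ⟨id, Iff.rfl⟩
  refine ⟨g, ⟨fun a b hab => (key a b).1 (h1 hab), fun a b => (h2 a b).trans (key a b).2⟩,
    fun a => ?_⟩
  have e5 := h3 a
  rcases hg a with ⟨p1, -, p3⟩ | ⟨p1 | ⟨c, p1⟩, p3⟩
  · left
    omega
  · left
    omega
  · rcases e5 with e5 | e5
    · left
      omega
    · right
      refine ⟨by omega, c, ?_⟩
      rcases hg c with ⟨q1, -, -⟩ | ⟨-, q3⟩ <;> omega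

theorem struct {π : P} (h : π ∈ ind C0) (h2 : 2 ≤ π.1) :
    ∃ f, Emb π f ∧ Good (Finset.univ.image f) := by
  classical
  obtain ⟨g, hg, h3⟩ := normal h.1
  have hc := ((indec_iff π).1 h.2).2
  let z : Fin π.1 := ⟨0, by omega⟩
  let l : Fin π.1 := ⟨π.1 - 1, by omega⟩
  have hz : ∀ a, g z ≤ g a := fun a => hg.1.monotone (Nat.zero_le _)
  have hzl : g z < g l := hg.1 (by show 0 < π.1 - 1; omega)
  have hl : ∀ a, g a ≤ g l := fun a => hg.1.monotone (by
    show a.1 ≤ π.1 - 1
    have := a.2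
    omega)
  have h0 : g z % 4 = 0 := by
    obtain ⟨a, b, p1, p2, p3⟩ := crossing hg hc (g z + 1) z l (by omega) hzl
    have := hz a
    have e1 := om_spec (g a)
    have e2 := om_spec (g b)
    rcases h3 z with q | ⟨q, c, q'⟩
    · omega
    · have := hz c
      omega
  have he : Emb π fun a => g a - g z := by
    refine ⟨fun a b hab => ?_, fun a b => (hg.2 a b).trans ?_⟩
    · have := hg.1 hab
      have := hz a
      show g a - g z < g b - g z
      omega
    · have := hz a
      have := hz b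
      have e1 := om_spec (g a)
      have e2 := om_spec (g b)
      have e3 := om_spec (g a - g z)
      have e4 := om_spec (g b - g z)
      show om (g a) < om (g b) ↔ om (g a - g z) < om (g b - g z)
      omega
  have mem : ∀ x, x ∈ (Finset.univ.image fun a => g a - g z) ↔ ∃ a, g a - g z = x := by
    intro x
    simp
  have g2 : ∀ a, (g a - g z) % 4 = 1 → ∃ c, g c - g z = g a - g z - 1 := by
    intro a ha
    have := hz a
    rcases h3 a with q | ⟨q, c, q'⟩
    · omega
    · have := hz c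
      exact ⟨c, by omega⟩
  refine ⟨_, he, ?_, ?_, ?_, ?_, ?_, ?_⟩
  · intro x hx
    obtain ⟨a, rfl⟩ := (mem x).1 hx
    have := hz a
    rcases h3 a with q | ⟨q, -⟩ <;> omega
  · intro x hx h1
    obtain ⟨a, rfl⟩ := (mem x).1 hx
    exact (mem _).2 (g2 a h1)
  · intro x hx y hy h1 h1'
    obtain ⟨a, rfl⟩ := (mem x).1 hx
    obtain ⟨b, rfl⟩ := (mem y).1 hy
    have := hz a
    have := hz b
    rcases h3 a with q | ⟨q, -⟩ <;> rcases h3 b with r | ⟨r, -⟩ <;> omega
  · intro t ht k hk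
    obtain ⟨b0, rfl⟩ := (mem t).1 ht
    obtain ⟨a, b, p1, p2, p3⟩ := crossing he hc (4 * k + 3) z b0 (by omega) hk
    have e1 := om_spec (g a - g z)
    have e2 := om_spec (g b - g z)
    have := hz a
    have p4 : (g a - g z) % 2 = 0 ∨ (g a - g z) % 4 = 1 := by
      rcases h3 a with q | ⟨q, -⟩ <;> omega
    refine ⟨?_, (mem _).2 ⟨b, by omega⟩⟩
    rcases p4 with p4 | p4
    · exact (mem _).2 ⟨a, by omega⟩
    · obtain ⟨c, hc⟩ := g2 a p4
      exact (mem _).2 ⟨c, by omega⟩
  · obtain ⟨a, b, p1, p2, p3⟩ := crossing he hc (g l - g z) z l (by omega) le_rfl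
    have e1 := om_spec (g a - g z)
    have e2 := om_spec (g b - g z)
    refine ⟨_, (mem _).2 ⟨b, rfl⟩, by omega, fun x hx => ?_⟩
    obtain ⟨c, rfl⟩ := (mem x).1 hx
    have := hl c
    omega
  · exact (mem _).2 ⟨z, by omega⟩

theorem good_miss {S : Finset ℕ} (hS : Good S) {x t : ℕ} (hx : x ∉ S) (ht : t ∈ S) :
    (x % 4 = 0 → t < x + 3) ∧ (x % 4 = 2 → 6 ≤ x → t + 3 < x) := by
  constructor
  · intro h
    by_contra hh
    have := (hS.2.2.2.1 t ht (x / 4) (by omega)).1
    exact hx ((show 4 * (x / 4) = x by omega) ▸ this)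
  · intro h h6
    by_contra hh
    have := (hS.2.2.2.1 t ht ((x - 6) / 4) (by omega)).2
    exact hx ((show 4 * ((x - 6) / 4) + 6 = x by omega) ▸ this)

def code (S : Finset ℕ) : Bool × Finset ℕ := (decide (2 ∈ S), S.filter fun x => x % 4 = 1)

theorem good_eq {S T : Finset ℕ} (hS : Good S) (hT : Good T) (hc : S.card = T.card)
    (h : code S = code T) : S = T := by
  have h2 : 2 ∈ S ↔ 2 ∈ T := by simpa [code] using congrArg Prod.fst h
  have h1 : ∀ x, x % 4 = 1 → (x ∈ S ↔ x ∈ T) := by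
    intro x hx
    have := Finset.ext_iff.mp (congrArg Prod.snd h) x
    simpa [code, hx] using this
  have : S ⊆ T ∨ T ⊆ S := by
    by_contra hh
    rw [not_or, Finset.not_subset, Finset.not_subset] at hh
    obtain ⟨⟨x, p1, p2⟩, ⟨y, q1, q2⟩⟩ := hh
    obtain ⟨x', r1, r2, r3⟩ := hS.2.2.2.2.1
    obtain ⟨y', s1, s2, s3⟩ := hT.2.2.2.2.1
    have a1 := good_miss hT p2 s1
    have a2 := good_miss hS q2 r1
    have a3 := r3 x p1
    have a4 := s3 y q1
    have a5 := hS.1 x p1
    have a6 := hT.1 y q1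
    have a7 : x % 4 ≠ 1 := fun e => p2 ((h1 x e).1 p1)
    have a8 : y % 4 ≠ 1 := fun e => q2 ((h1 y e).2 q1)
    have a9 : x ≠ 2 := fun e => p2 (e ▸ h2.1 (e ▸ p1))
    have a10 : y ≠ 2 := fun e => q2 (e ▸ h2.2 (e ▸ q1))
    have a11 : x ≠ y := fun e => p2 (e ▸ q1)
    omega
  rcases this with h3 | h3
  · exact Finset.eq_of_subset_of_card_le h3 hc.ge
  · exact (Finset.eq_of_subset_of_card_le h3 hc.le).symm

theorem good_size {S : Finset ℕ} (hS : Good S) {j : ℕ} (hj : 4 * j + 1 ∈ S) :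
    2 * j + 3 ≤ (insert 2 S).card := by
  have h1 : insert (4 * j + 1) ((Finset.range (2 * j + 2)).image fun i => 2 * i) ⊆
      insert 2 S := by
    intro x hx
    simp only [Finset.mem_insert, Finset.mem_image, Finset.mem_range] at hx ⊢
    rcases hx with rfl | ⟨i, hi, rfl⟩
    · exact Or.inr hj
    · by_contra hh
      rw [not_or] at hh
      have a1 := good_miss hS hh.2 hj
      have a2 : 2 * i ≠ 4 * j + 1 - 1 := fun e => hh.2 (e ▸ hS.2.1 _ hj (by omega))
      omega
  have h2 := Finset.card_le_card h1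
  rw [Finset.card_insert_of_notMem (by simp; omega),
    Finset.card_image_of_injective _ (fun a b h => by simpa using h), Finset.card_range] at h2
  omega

theorem cnt_le_code (k : ℕ) (hk : 2 ≤ k) (Z : Finset (Bool × Finset ℕ))
    (hZ : ∀ S, Good S → S.card = k → code S ∈ Z) : cnt (ind C0) k ≤ Z.card := by
  classical
  have hex : ∀ s : Equiv.Perm (Fin k), ∃ f : Fin k → ℕ, (⟨k, s⟩ : P) ∈ ind C0 →
      Emb ⟨k, s⟩ f ∧ Good (Finset.univ.image f) := by
    intro s
    by_cases h : (⟨k, s⟩ : P) ∈ ind C0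
    · obtain ⟨f, hf⟩ := struct h hk
      exact ⟨f, fun _ => hf⟩
    · exact ⟨fun _ => 0, fun h' => absurd h' h⟩
  choose F hF using hex
  have hcard : ∀ s, (⟨k, s⟩ : P) ∈ ind C0 → (Finset.univ.image (F s)).card = k := by
    intro s hs
    rw [Finset.card_image_of_injective _ (hF s hs).1.1.injective]
    simp
  refine (cnt_le (ind C0) k (fun s => (⟨k, s⟩ : P) ∈ ind C0) fun _ h => h).trans ?_
  refine Finset.card_le_card_of_injOn (fun s => code (Finset.univ.image (F s))) ?_ ?_
  · intro s hs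
    have hs' : (⟨k, s⟩ : P) ∈ ind C0 := by simpa using hs
    exact hZ _ (hF s hs').2 (hcard s hs')
  · intro s hs t ht hst
    have hs' : (⟨k, s⟩ : P) ∈ ind C0 := by simpa using hs
    have ht' : (⟨k, t⟩ : P) ∈ ind C0 := by simpa using ht
    have h1 := good_eq (hF s hs').2 (hF t ht').2 ((hcard s hs').trans (hcard t ht').symm) hst
    have h2 : F s = F t := ((hF s hs').1.1.range_inj (hF t ht').1.1).1 (by
      have := congrArg (fun u : Finset ℕ => (u : Set ℕ)) h1
      simpa using this)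
    refine perm_ext s t fun a b => ?_
    have h3 := (hF s hs').1.2 a b
    have h4 := (hF t ht').1.2 a b
    rw [h2] at h3
    exact h3.trans h4.symm

theorem ind_big (k : ℕ) (hk : 2 ≤ k) : cnt (ind C0) k ≤ 2 * 2 ^ (k / 2) := by
  refine (cnt_le_code k hk
    (Finset.univ ×ˢ ((Finset.range (k / 2)).image fun j => 4 * j + 1).powerset) ?_).trans ?_
  · intro S hS hc
    simp only [code, Finset.mem_product, Finset.mem_univ, true_and, Finset.mem_powerset]
    intro x hx
    rw [Finset.mem_filter] at hx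
    have h1 : 4 * (x / 4) + 1 = x := by omega
    have h2 := good_size hS (j := x / 4) (h1.symm ▸ hx.1)
    have h3 := Finset.card_insert_le 2 S
    exact Finset.mem_image.2 ⟨x / 4, Finset.mem_range.2 (by omega), h1⟩
  · rw [Finset.card_product, Finset.card_powerset]
    have : ((Finset.range (k / 2)).image fun j => 4 * j + 1).card ≤ k / 2 :=
      Finset.card_image_le.trans (by simp)
    simpa using Nat.pow_le_pow_right (by norm_num) this

theorem pow_bd (m : ℕ) : (2 * 2 ^ (m + 3) : ℝ) ≤ (8 / 5) ^ (2 * (m + 3)) := by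
  induction m with
  | zero => norm_num
  | succ m ih =>
    have h1 : (0 : ℝ) < (8 / 5) ^ (2 * (m + 3)) := by positivity
    rw [show 2 * (m + 1 + 3) = 2 * (m + 3) + 2 by ring, show m + 1 + 3 = (m + 3) + 1 by ring,
      pow_succ (2 : ℝ), pow_add (8 / 5 : ℝ) _ 2]
    nlinarith

theorem ind_real (k : ℕ) (hk : 6 ≤ k) : (cnt (ind C0) k : ℝ) ≤ (8 / 5) ^ k := by
  have h1 : (cnt (ind C0) k : ℝ) ≤ 2 * 2 ^ (k / 2) := by exact_mod_cast ind_big k (by omega)
  have h2 := pow_bd (k / 2 - 3)
  rw [show k / 2 - 3 + 3 = k / 2 by omega] at h2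
  exact h1.trans (h2.trans (pow_le_pow_right₀ (by norm_num) (by omega)))

def Ful (B n : ℕ) (f : Fin n → ℕ) : Prop :=
  StrictMono f ∧ (∀ x, x ≤ B → x % 2 = 0 → ∃ a, f a = x) ∧
    ∀ a, f a ≤ B ∧ (f a % 2 = 0 ∨ f a % 80 = 1)

theorem rigid {B n : ℕ} (hB : B % 4 = 2) {f g : Fin n → ℕ} (hf : Ful B n f) (hg : Ful B n g)
    (h : ∀ a b, om (f a) < om (f b) ↔ om (g a) < om (g b)) : f = g := by
  have key : ∀ f g : Fin n → ℕ, Ful B n f → Ful B n g →
      (∀ a b, om (f a) < om (f b) ↔ om (g a) < om (g b)) →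
      ∀ a, (∀ c, c < a → f c = g c) → ¬ f a < g a := by
    intro f g hf hg h a ih hlt
    have h1 : ∀ c, g c < f a ∨ g a ≤ g c := by
      intro c
      rcases lt_or_ge c a with hc | hc
      · exact Or.inl (ih c hc ▸ hf.1 hc)
      · exact Or.inr (hg.1.monotone hc)
    have h2 := hf.2.2 a
    have h3 : f a % 2 ≠ 0 := by
      intro e
      obtain ⟨c, hc⟩ := hg.2.1 (f a) h2.1 e
      have := h1 c
      omega
    obtain ⟨c, hc⟩ := hf.2.1 (f a - 1) (by omega) (by omega)
    obtain ⟨d, hd⟩ := hg.2.1 (f a + 1) (by omega) (by omega)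
    have h4 : c < a := hf.1.lt_iff_lt.mp (by omega)
    have h5 := ih c h4
    have h6 := h1 d
    have h7 := h c a
    have := om_spec (f a)
    have := om_spec (f c)
    have := om_spec (g a)
    have := om_spec (g c)
    omega
  funext a
  induction a using WellFoundedLT.induction with
  | _ a ih =>
    have h1 := key f g hf hg h a ih
    have h2 := key g f hg hf (fun a b => (h a b).symm) a fun c hc => (ih c hc).symm
    omega

theorem full_mem {B n : ℕ} (hB : B % 4 = 2) {f : Fin n → ℕ} (hf : Ful B n f) :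
    ∃ s : Equiv.Perm (Fin n), (⟨n, s⟩ : P) ∈ ind C0 ∧
      ∀ a b, s a < s b ↔ om (f a) < om (f b) := by
  obtain ⟨s, hs⟩ := exists_pat (fun a => om (f a)) (fun a b hab => hf.1.injective (by
    have h1 : om (f a) = om (f b) := hab
    have := om_spec (f a)
    have := om_spec (f b)
    omega))
  refine ⟨s, ⟨⟨f, ⟨hf.1, hs⟩, fun a => (hf.2.2 a).2⟩, (indec_iff _).2 ⟨?_, ?_⟩⟩, hs⟩
  · obtain ⟨a, -⟩ := hf.2.1 0 (Nat.zero_le _) rfl
    have := a.2
    show n ≠ 0
    omega
  · intro j h0 hj hc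
    have hj' : j < n := hj
    have h1 : f ⟨0, by omega⟩ < f ⟨j, hj'⟩ := hf.1 (by exact h0)
    have h2 := (hf.2.2 ⟨j, hj'⟩).1
    obtain ⟨a, ha⟩ := hf.2.1 (4 * ((f ⟨j, hj'⟩ - 1) / 4)) (by omega) (by omega)
    obtain ⟨b, hb⟩ := hf.2.1 (min B (4 * ((f ⟨j, hj'⟩ - 1) / 4) + 6)) (by omega) (by omega)
    have h3 : a < ⟨j, hj'⟩ := hf.1.lt_iff_lt.mp (by omega)
    have h4 : (⟨j, hj'⟩ : Fin n) ≤ b := hf.1.le_iff_le.mp (by omega)
    have h5 := (hs a b).1 (hc a b h3 h4)
    have := om_spec (f a)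
    have := om_spec (f b)
    omega

def ev (m : ℕ) : Finset ℕ := (Finset.range (160 * m + 3)).filter fun x => x % 2 = 0

def SD (m : ℕ) (D : Fin m → Bool) : Finset ℕ :=
  ev m ∪ Finset.univ.image fun i : Fin m => 80 * (2 * i.1 + (D i).toNat) + 1

theorem SD_mem (m : ℕ) (D : Fin m → Bool) (x : ℕ) : x ∈ SD m D ↔
    (x < 160 * m + 3 ∧ x % 2 = 0) ∨ ∃ i : Fin m, 80 * (2 * i.1 + (D i).toNat) + 1 = x := by
  simp [SD, ev]

theorem SD_card (m : ℕ) (D : Fin m → Bool) : (SD m D).card = (ev m).card + m := by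
  unfold SD
  rw [Finset.card_union_of_disjoint, Finset.card_image_of_injective]
  · simp
  · intro i j hij
    have h1 : 80 * (2 * i.1 + (D i).toNat) + 1 = 80 * (2 * j.1 + (D j).toNat) + 1 := hij
    have := Bool.toNat_le (D i)
    have := Bool.toNat_le (D j)
    exact Fin.ext (by omega)
  · rw [Finset.disjoint_left]
    intro x h1 h2
    obtain ⟨i, -, rfl⟩ := Finset.mem_image.1 h2
    have := (Finset.mem_filter.1 h1).2
    omega

theorem lower (m : ℕ) : 2 ^ m ≤ cnt (ind C0) ((ev m).card + m) := by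
  classical
  have hB : (160 * m + 2) % 4 = 2 := by omega
  have hex : ∀ D : Fin m → Bool, ∃ f : Fin ((ev m).card + m) → ℕ,
      Ful (160 * m + 2) _ f ∧ Set.range f = (SD m D : Set ℕ) := by
    intro D
    have hr := Finset.range_orderEmbOfFin (SD m D) (SD_card m D)
    refine ⟨(SD m D).orderEmbOfFin (SD_card m D), ⟨OrderEmbedding.strictMono _, ?_, ?_⟩, hr⟩
    · intro x h1 h2
      have : x ∈ Set.range ((SD m D).orderEmbOfFin (SD_card m D)) := by
        rw [hr]
        exact (SD_mem m D x).2 (Or.inl ⟨by omega, h2⟩)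
      exact this
    · intro a
      rcases (SD_mem m D _).1 (Finset.orderEmbOfFin_mem (SD m D) (SD_card m D) a) with
        h | ⟨i, h⟩
      · omega
      · have := Bool.toNat_le (D i)
        have := i.2
        omega
  choose F hF hR using hex
  choose G hG hG' using fun D => full_mem hB (hF D)
  have hinj : Function.Injective G := by
    intro D E h
    have h1 : F D = F E := rigid hB (hF D) (hF E) fun a b => by
      rw [← hG', ← hG', h]
    have h2 : SD m D = SD m E := by
      rw [← Finset.coe_inj, ← hR, ← hR, h1]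
    funext i
    have h3 : 80 * (2 * i.1 + (D i).toNat) + 1 ∈ SD m E :=
      h2 ▸ (SD_mem m D _).2 (Or.inr ⟨i, rfl⟩)
    rcases (SD_mem m E _).1 h3 with h4 | ⟨j, h4⟩
    · omega
    · have p1 := Bool.toNat_le (D i)
      have p2 := Bool.toNat_le (E j)
      obtain rfl : j = i := Fin.ext (by omega)
      have p3 : (E j).toNat = (D j).toNat := by omega
      revert p3
      cases D j <;> cases E j <;> simp
  have h5 := Set.ncard_le_ncard_of_injOn (s := (Set.univ : Set (Fin m → Bool)))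
    (t := {π | π ∈ ind C0 ∧ π.1 = (ev m).card + m})
    (fun D => (⟨(ev m).card + m, G D⟩ : P)) (fun D _ => ⟨hG D, rfl⟩)
    (fun D _ E _ h => hinj (eq_of_heq (Sigma.mk.inj h).2)) (fin_fib _ _)
  simpa [Set.ncard_univ, cnt] using h5

theorem root_le (n : ℕ) (hn : 6 ≤ n) : (cnt (ind C0) n : ℝ) ^ ((n : ℝ)⁻¹) ≤ 8 / 5 :=
  calc (cnt (ind C0) n : ℝ) ^ ((n : ℝ)⁻¹) ≤ ((8 / 5 : ℝ) ^ n) ^ ((n : ℝ)⁻¹) :=
        Real.rpow_le_rpow (by positivity) (ind_real n hn) (by positivity)
    _ = 8 / 5 := Real.pow_rpow_inv_natCast (by norm_num) (by omega)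

/-- A sum closed class whose indecomposables have upper growth rate strictly between `1` and
the golden ratio. -/
theorem result : ∃ C : Set P, IsClass C ∧ SumClosed C ∧
    (∀ n : ℕ, 2 ≤ n → cnt (ind C) n ≤ 2 * 2 ^ (n / 2)) ∧
    (∀ m : ℕ, ∃ n, m ≤ n ∧ n ≤ 161 * m + 3 ∧ 2 ^ m ≤ cnt (ind C) n) ∧
    1 < ugr (ind C) ∧ ugr (ind C) < (1 + Real.sqrt 5) / 2 := by
  have hlow : ∀ m : ℕ, ∃ n, m ≤ n ∧ n ≤ 161 * m + 3 ∧ 2 ^ m ≤ cnt (ind C0) n := by
    intro m
    have : (ev m).card ≤ 160 * m + 3 := (Finset.card_filter_le _ _).trans (by simp)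
    exact ⟨_, by omega, by omega, lower m⟩
  refine ⟨C0, C0_class, C0_sum, ind_big, hlow, ?_, ?_⟩
  · have h1 : (1 : ℝ) < 2 ^ ((164 : ℝ)⁻¹) := Real.one_lt_rpow (by norm_num) (by norm_num)
    refine h1.trans_le (Filter.le_limsup_of_frequently_le ?_ ?_)
    · rw [Filter.frequently_atTop]
      intro m
      obtain ⟨n, p1, p2, p3⟩ := hlow (m + 1)
      refine ⟨n, by omega, ?_⟩
      have hn : (0 : ℝ) < n := by exact_mod_cast (by omega : 0 < n)
      have p4 : (n : ℝ) ≤ 164 * ((m + 1 : ℕ) : ℝ) := by exact_mod_cast (by omega)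
      calc (2 : ℝ) ^ ((164 : ℝ)⁻¹) ≤ 2 ^ (((m + 1 : ℕ) : ℝ) * (n : ℝ)⁻¹) := by
            refine Real.rpow_le_rpow_of_exponent_le (by norm_num) ?_
            rw [← div_eq_mul_inv, le_div_iff₀ hn]
            linarith
        _ = ((2 : ℝ) ^ (m + 1)) ^ ((n : ℝ)⁻¹) := by
            rw [Real.rpow_mul (by norm_num), Real.rpow_natCast]
        _ ≤ (cnt (ind C0) n : ℝ) ^ ((n : ℝ)⁻¹) :=
            Real.rpow_le_rpow (by positivity) (by exact_mod_cast p3) (by positivity)
    · refine ⟨8 / 5, ?_⟩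
      rw [Filter.eventually_map]
      filter_upwards [Filter.eventually_ge_atTop 6] with n hn
      exact root_le n hn
  · have h1 : ugr (ind C0) ≤ 8 / 5 := by
      refine Filter.limsup_le_of_le
        (Filter.isCoboundedUnder_le_of_le (x := 0) _ fun n => by positivity) ?_
      filter_upwards [Filter.eventually_ge_atTop 6] with n hn
      exact root_le n hn
    have h2 : (11 / 5 : ℝ) < Real.sqrt 5 := Real.lt_sqrt_of_sq_lt (by norm_num)
    linarith

end Pool.Agent.Results.MP_9e0f03_co.Full
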